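import Pool.Agent.T2h79.XM.CG
import Pool.Agent.T2h79.XM.Z.Iso

/-!
# A criterion for the finiteness of `X_0(15)(K)` when `3` is inert and `5` splits

The curve has rank `0` over `K = ℚ(√-m)` if the Rédei system of `K`, changed by the matrix of rank one
`al(q) be(p)`, has only the constant solutions (`Pool/Agent/T2h79/XM/Z`, helper79). Here the changed
system is reduced to the class group: if there is no class of order four, then the Rédei system has only
the constant solutions, and if `5 b` is a norm for a product `b` of ramified primes, then the vector `y` of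
`b` solves the transposed system `∑_q y_q N(q, p) = be(p)`. So a solution `x` of the changed system satisfies
`N x = al (be · x)` and `be · x = y N x = (y · al) (be · x) = 0` if `b` is `1` modulo `3`.
-/

set_option autoImplicit false
set_option linter.unusedVariables false
set_option linter.unusedSectionVars false

namespace Pool.Agent.T2h1.XB

open Finset NumberField
open Pool.Agent.T2h79.XM
open Pool.Agent.T2h79.XM.Z
open Pool.Agent.Y703.CQ (nr)
open Pool.Agent.N973.ND (uu)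
open Pool.Agent.N916.GB (Po sy Vt Gd Gv z2 z2_add_self z2_sq nr_recip z2_eq_of_add)
open Pool.Agent.N848.Q hiding star

open Pool.Agent.N848.Q renaming star → st

open scoped Classical

/-- duality -/
lemma dual (V : Finset ℕ) (N : ℕ → ℕ → ZMod 2) (x y : ℕ → ZMod 2) :
    ∑ p ∈ V, x p * ∑ q ∈ V, (if q = p then 0 else y q * N q p + y p * N p q) =
      ∑ q ∈ V, y q * ∑ p ∈ V, (x p + x q) * N q p := by
  have h1 : ∑ q ∈ V, y q * ∑ p ∈ V, (x p + x q) * N q p =
      ∑ q ∈ V, ∑ p ∈ V, (if q = p then 0 else y q * x p * N q p) +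
      ∑ q ∈ V, ∑ p ∈ V, (if q = p then 0 else y q * x q * N q p) := by
    rw [← sum_add_distrib]
    refine sum_congr rfl fun q _ => ?_
    rw [← sum_add_distrib, mul_sum]
    refine sum_congr rfl fun p _ => ?_
    by_cases h : q = p
    · rw [if_pos h, if_pos h, h, z2_add_self, zero_mul, mul_zero, add_zero]
    · rw [if_neg h, if_neg h]; ring
  have h2 : ∑ p ∈ V, x p * ∑ q ∈ V, (if q = p then 0 else y q * N q p + y p * N p q) =
      ∑ p ∈ V, ∑ q ∈ V, (if q = p then 0 else y q * x p * N q p) +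
      ∑ p ∈ V, ∑ q ∈ V, (if q = p then 0 else y p * x p * N p q) := by
    rw [← sum_add_distrib]
    refine sum_congr rfl fun p _ => ?_
    rw [← sum_add_distrib, mul_sum]
    refine sum_congr rfl fun q _ => ?_
    by_cases h : q = p
    · rw [if_pos h, if_pos h, if_pos h, mul_zero, add_zero]
    · rw [if_neg h, if_neg h, if_neg h]; ring
  have h3 : ∑ p ∈ V, ∑ q ∈ V, (if q = p then 0 else y q * x p * N q p) =
      ∑ q ∈ V, ∑ p ∈ V, (if q = p then 0 else y q * x p * N q p) := sum_comm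
  have h4 : ∑ p ∈ V, ∑ q ∈ V, (if q = p then 0 else y p * x p * N p q) =
      ∑ q ∈ V, ∑ p ∈ V, (if q = p then 0 else y q * x q * N q p) := by
    refine sum_congr rfl fun p _ => sum_congr rfl fun q _ => ?_
    by_cases h : q = p
    · rw [if_pos h, if_pos h.symm]
    · rw [if_neg h, if_neg (Ne.symm h)]
  rw [h1, h2, h3, h4]

section

variable {n : ℕ} {t : Bool} {r s : ZMod 2}

/-- a solution of the transposed system with right side `be`, orthogonal to `al` -/
theorem gz_of_left (hz : Hz n t r s) (hG : Gd t r s n.primeFactors) {y : ℕ → ZMod 2}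
    (hy : ∀ p ∈ n.primeFactors, Lk t r s n.primeFactors y p = be r p)
    (ha : ∑ q ∈ Vt t n.primeFactors, y q * al q = 0) : Gz t r s n.primeFactors := by
  obtain ⟨hn, hm4, hok, hAl, hBe, n3, n5⟩ := hz
  set S := n.primeFactors with hSdef
  have hS : ∀ p ∈ S, Po p := po_of (odd_of hm4)
  have hB0 : ∑ q ∈ Vt t S, be r q = 0 := sum_be hS hok hBe
  have hy' : ∀ p ∈ Vt t S, Lk t r s S y p = be r p := by
    intro p hp
    rcases mem_Vt.1 hp with ⟨ht, rfl⟩ | hp
    · have h1 := sum_Lk (t := t) (r := r) (s := s) S y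
      have h2 := hB0
      rw [sum_Vt hS, if_pos ht, sum_congr rfl hy] at h1
      rw [sum_Vt hS, if_pos ht] at h2
      exact add_right_cancel (h1.trans h2.symm)
    · exact hy p hp
  intro x hx
  obtain ⟨B, hB⟩ : ∃ B : ZMod 2, B = ∑ p ∈ Vt t S, x p * be r p := ⟨_, rfl⟩
  have hx' : ∀ q ∈ Vt t S, ∑ p ∈ Vt t S, (x p + x q) * sy r s q p = al q * B := by
    intro q hq
    have h1 := hx q hq
    have h3 : ∀ p ∈ Vt t S, (x p + x q) * sz r s q p = (x p + x q) * sy r s q p +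
        (al q * (x p * be r p) + al q * x q * be r p) := by
      intro p _
      unfold sz
      ring
    rw [sum_congr rfl h3, sum_add_distrib, sum_add_distrib, ← mul_sum, ← mul_sum, hB0, mul_zero,
      add_zero, ← hB] at h1
    exact z2_eq_of_add h1
  rcases z2 B with h0 | h1
  · exact hG x fun q hq => by rw [hx' q hq, h0, mul_zero]
  · exfalso
    have h2 := dual (Vt t S) (sy r s) x y
    have h3 : ∑ p ∈ Vt t S, x p * ∑ q ∈ Vt t S,
        (if q = p then 0 else y q * sy r s q p + y p * sy r s p q) = B := by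
      rw [hB]
      refine sum_congr rfl fun p hp => ?_
      rw [← hy' p hp]
      rfl
    have h4 : ∑ q ∈ Vt t S, y q * ∑ p ∈ Vt t S, (x p + x q) * sy r s q p = 0 := by
      have h5 : ∀ q ∈ Vt t S, y q * ∑ p ∈ Vt t S, (x p + x q) * sy r s q p = y q * al q * B := by
        intro q hq
        rw [hx' q hq, mul_assoc]
      rw [sum_congr rfl h5, ← sum_mul, ha, zero_mul]
    rw [h3, h4, h1] at h2
    exact one_ne_zero h2

/-- the local conditions at the odd ramified primes -/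
theorem gz_of_loc (hz : Hz n t r s) (hG : Gd t r s n.primeFactors) {b : ℤ} (hb : Squarefree b)
    (hb0 : 0 < b) (hdvd : b ∣ 2 * (n : ℤ)) (hb2 : t = false → b % 2 = 1) (hb3 : b % 3 = 1)
    (hloc : ∀ p ∈ n.primeFactors, ∀ m' : ℤ, (((if r = 1 then 2 * n else n : ℕ)) : ℤ) = p * m' →
      (¬ (p : ℤ) ∣ b → Sq p (5 * b)) ∧ ∀ b', b = p * b' → Sq p (m' * (5 * b'))) :
    Gz t r s n.primeFactors := by
  obtain ⟨hn, hm4, hok, hAl, hBe, n3, n5⟩ := id hz
  have hS : ∀ p ∈ n.primeFactors, Po p := po_of (odd_of hm4)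
  have hS5 : ∀ p ∈ n.primeFactors, p ≠ 5 := by
    rintro p hp rfl
    have := Nat.dvd_of_mem_primeFactors hp
    omega
  have hS3 : ∀ p ∈ n.primeFactors, p % 3 ≠ 0 := by
    intro p hp h
    have h1 := Nat.dvd_of_mem_primeFactors hp
    have : 3 ∣ n := (Nat.dvd_of_mod_eq_zero h).trans h1
    omega
  refine gz_of_left hz hG (y := fun p => if (p : ℤ) ∣ b then 1 else 0) ?_ ?_
  · intro p hp
    have hp' := hS p hp
    have hpp : Prime (p : ℤ) := Nat.prime_iff_prime_int.1 hp'.1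
    have h5 : ¬ (p : ℤ) ∣ 5 := fun h =>
      hS5 p hp ((Nat.prime_dvd_prime_iff_eq hp'.1 Nat.prime_five).1 (by exact_mod_cast h))
    have hns5 : ns p 5 = be r p := (be_ns (r := r) hp' (hS5 p hp)).1
    obtain ⟨c1, c2⟩ := col hn hm4 hok hb hb0 hdvd hb2 hp
    have hqn : p ∣ n := Nat.dvd_of_mem_primeFactors hp
    obtain ⟨m', hm'⟩ : (p : ℤ) ∣ ((if r = 1 then 2 * n else n : ℕ) : ℤ) := by
      split_ifs
      · exact_mod_cast hqn.mul_left 2
      · exact_mod_cast hqn
    obtain ⟨l1, l2⟩ := hloc p hp m' hm'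
    by_cases hpb : (p : ℤ) ∣ b
    · obtain ⟨b', hb'⟩ := hpb
      have h6 : ns p (m' * (5 * b')) = 0 := ns_sq.2 (l2 b' hb')
      rw [c2 m' b' hm' hb']
      have hm'nd : ¬ (p : ℤ) ∣ m' := by
        rintro ⟨f, hf⟩
        have h6 : p * p ∣ (if r = 1 then 2 * n else n : ℕ) := by
          have : ((p * p : ℕ) : ℤ) ∣ (((if r = 1 then 2 * n else n : ℕ)) : ℤ) := by
            rw [hm', hf]; push_cast; exact ⟨f, by ring⟩
          exact_mod_cast this
        have h7 : p * p ∣ n := by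
          split_ifs at h6
          · refine (Nat.Coprime.dvd_of_dvd_mul_left ?_ h6)
            have : Nat.Coprime p 2 := (Nat.coprime_primes hp'.1 Nat.prime_two).2 hp'.2
            exact Nat.Coprime.mul_left this this
          · exact h6
        exact hp'.1.prime.not_isUnit (hn p h7)
      have hb'nd : ¬ (p : ℤ) ∣ b' := by
        rintro ⟨f, hf⟩
        exact hpp.not_isUnit (hb p ⟨f, by rw [hb', hf]; ring⟩)
      have h8 : m' * (5 * b') = 5 * (m' * b') := by ring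
      rw [h8, ns_mul hp'.1 h5 (fun h => (hpp.dvd_or_dvd h).elim hm'nd hb'nd), hns5] at h6
      exact (z2_eq_of_add h6).symm
    · have h6 : ns p (5 * b) = 0 := ns_sq.2 (l1 hpb)
      rw [ns_mul hp'.1 h5 hpb, hns5] at h6
      rw [c1 hpb]
      exact (z2_eq_of_add h6).symm
  · have hfac := e_fac hn hm4 hb hb0 hdvd
    obtain ⟨T, hT⟩ : ∃ T : Finset ℕ, T = n.primeFactors.filter (fun p : ℕ => ((p : ℕ) : ℤ) ∣ b) :=
      ⟨_, rfl⟩
    rw [← hT] at hfac
    have hTS : T ⊆ n.primeFactors := hT ▸ filter_subset _ _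
    rw [sum_Vt hS, al2v, mul_one]
    have h6 : ∑ q ∈ n.primeFactors, (if (q : ℤ) ∣ b then (1 : ZMod 2) else 0) * al q =
        ∑ q ∈ T, al q := by
      rw [hT, sum_filter]
      refine sum_congr rfl fun q _ => ?_
      split_ifs
      · rw [one_mul]
      · rw [zero_mul]
    have h7 : (if t = true then (if ((2 : ℕ) : ℤ) ∣ b then (1 : ZMod 2) else 0) else 0) =
        if (2 : ℤ) ∣ b then 1 else 0 := by
      by_cases ht : t = true
      · rw [if_pos ht]
        rfl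
      · rw [if_neg ht, if_neg]
        intro h
        have := hb2 (by simpa using ht)
        omega
    have h8 := prod_three T fun p hp => hS3 p (hTS hp)
    have h9 : ((∏ p ∈ T, p : ℕ) : ℤ) = ∏ p ∈ T, (p : ℤ) := by push_cast; rfl
    rw [← h9] at hfac
    refine Eq.trans (congrArg₂ (· + ·) h7 h6) ?_
    show (if (2 : ℤ) ∣ b then (1 : ZMod 2) else 0) + ∑ q ∈ T, al q = 0
    generalize (∏ p ∈ T, p) = P at *
    by_cases h2 : (2 : ℤ) ∣ b
    · rw [if_pos h2] at hfac ⊢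
      rcases z2 (∑ p ∈ T, al p) with h13 | h13
      · rw [h13, if_pos rfl] at h8
        exfalso
        omega
      · rw [h13]
        decide
    · rw [if_neg h2] at hfac ⊢
      rcases z2 (∑ p ∈ T, al p) with h13 | h13
      · rw [h13, add_zero]
      · rw [h13, if_neg (by decide)] at h8
        exfalso
        omega

end

/-- a primitive solution -/
lemma min_sol {M b : ℕ} (h : ∃ u v : ℚ, (5 * b : ℚ) = u ^ 2 + M * v ^ 2) :
    ∃ X Y Z : ℤ, X ^ 2 + M * Y ^ 2 = 5 * b * Z ^ 2 ∧ 0 < Z ∧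
      ∀ p : ℕ, p.Prime → ¬ ((p : ℤ) ∣ X ∧ (p : ℤ) ∣ Y ∧ (p : ℤ) ∣ Z) := by
  obtain ⟨u, v, h⟩ := h
  have hex : ∃ Z : ℕ, 0 < Z ∧ ∃ X Y : ℤ, X ^ 2 + M * Y ^ 2 = 5 * b * (Z : ℤ) ^ 2 := by
    refine ⟨u.den * v.den, Nat.mul_pos u.den_pos v.den_pos, u.num * v.den, v.num * u.den, ?_⟩
    have hu : (u.num : ℚ) = u * u.den := (Rat.mul_den_eq_num u).symm
    have hv : (v.num : ℚ) = v * v.den := (Rat.mul_den_eq_num v).symm
    have h1 : (((u.num * v.den) ^ 2 + M * (v.num * u.den) ^ 2 : ℤ) : ℚ) =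
        ((5 * b * ((u.den * v.den : ℕ) : ℤ) ^ 2 : ℤ) : ℚ) := by
      push_cast
      rw [hu, hv]
      linear_combination (-((u.den : ℚ) * v.den) ^ 2) * h
    exact_mod_cast h1
  obtain ⟨N, hN, hmin⟩ : ∃ N : ℕ, (0 < N ∧ ∃ X Y : ℤ, X ^ 2 + M * Y ^ 2 = 5 * b * (N : ℤ) ^ 2) ∧
      ∀ N' < N, ¬ (0 < N' ∧ ∃ X Y : ℤ, X ^ 2 + M * Y ^ 2 = 5 * b * (N' : ℤ) ^ 2) :=
    ⟨Nat.find hex, Nat.find_spec hex, fun N' h => Nat.find_min hex h⟩
  obtain ⟨hZ, X, Y, hXY⟩ := hN
  refine ⟨X, Y, (N : ℤ), hXY, by exact_mod_cast hZ, fun p hp hd => ?_⟩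
  obtain ⟨⟨X', hX⟩, ⟨Y', hY⟩, ⟨Z', hZ'⟩⟩ := hd
  have hp0 : (0 : ℤ) < p := by exact_mod_cast hp.pos
  have hZp : (0 : ℤ) < p * Z' := by rw [← hZ']; exact_mod_cast hZ
  have hZ'0 : 0 < Z' := (pos_iff_pos_of_mul_pos hZp).1 hp0
  have hp2 : (2 : ℤ) ≤ p := by exact_mod_cast hp.two_le
  have hcast : ((Z'.toNat : ℕ) : ℤ) = Z' := Int.toNat_of_nonneg hZ'0.le
  refine hmin Z'.toNat ?_ ⟨?_, X', Y', ?_⟩
  · zify
    rw [hcast, hZ']
    nlinarith
  · zify
    rw [hcast]
    exact hZ'0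
  · rw [hcast]
    rw [hX, hY, hZ'] at hXY
    have hp00 : (p : ℤ) ^ 2 ≠ 0 := pow_ne_zero 2 hp0.ne'
    refine mul_left_cancel₀ hp00 ?_
    linear_combination hXY

/-- the local conditions for a norm -/
lemma loc_of {M b : ℕ} (hM : Squarefree M) (h : ∃ u v : ℚ, (5 * b : ℚ) = u ^ 2 + M * v ^ 2)
    {p : ℕ} (hp : p.Prime) {m' : ℤ} (hm' : (M : ℤ) = p * m') :
    (¬ (p : ℤ) ∣ b → Sq p (5 * b)) ∧ ∀ b' : ℤ, (b : ℤ) = p * b' → Sq p (m' * (5 * b')) := by
  obtain ⟨X, Y, Z, hXY, hZ, hco⟩ := min_sol h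
  have hpp : Prime (p : ℤ) := Nat.prime_iff_prime_int.1 hp
  have : Fact p.Prime := ⟨hp⟩
  have hsq : Squarefree (M : ℤ) := Int.squarefree_natCast.2 hM
  have hm'nd : ¬ (p : ℤ) ∣ m' := by
    rintro ⟨f, hf⟩
    exact hpp.not_isUnit (hsq p ⟨f, by rw [hm', hf]; ring⟩)
  constructor
  · intro hpb
    have hpZ : ¬ (p : ℤ) ∣ Z := by
      rintro ⟨Z', hZ'⟩
      have h1 : (p : ℤ) ∣ X ^ 2 := ⟨5 * b * (p * Z' ^ 2) - m' * Y ^ 2, by
        rw [hZ'] at hXY
        rw [hm'] at hXY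
        linear_combination hXY⟩
      have h2 := hpp.dvd_of_dvd_pow h1
      obtain ⟨X', hX'⟩ := h2
      have h3 : (p : ℤ) ∣ m' * Y ^ 2 := ⟨5 * b * Z' ^ 2 - X' ^ 2, by
        rw [hZ', hX', hm'] at hXY
        refine mul_left_cancel₀ hpp.ne_zero ?_
        linear_combination hXY⟩
      have h4 := hpp.dvd_of_dvd_pow ((hpp.dvd_or_dvd h3).resolve_left hm'nd)
      exact hco p hp ⟨⟨X', hX'⟩, h4, ⟨Z', hZ'⟩⟩
    have hZ0 : (Z : ZMod p) ≠ 0 := by
      rw [Ne, ZMod.intCast_zmod_eq_zero_iff_dvd]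
      exact hpZ
    have h5 : (X : ZMod p) ^ 2 = (((5 * b : ℤ)) : ZMod p) * (Z : ZMod p) ^ 2 := by
      have h6 : ((X ^ 2 + M * Y ^ 2 : ℤ) : ZMod p) = ((5 * b * Z ^ 2 : ℤ) : ZMod p) := by rw [hXY]
      rw [hm'] at h6
      push_cast at h6 ⊢
      rw [ZMod.natCast_self] at h6
      linear_combination h6
    show IsSquare (((5 * b : ℤ)) : ZMod p)
    refine ⟨(X : ZMod p) / Z, ?_⟩
    field_simp
    linear_combination -h5
  · intro b' hb'
    have h1 : (p : ℤ) ∣ X ^ 2 := ⟨5 * b' * Z ^ 2 - m' * Y ^ 2, by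
      rw [hb', hm'] at hXY
      linear_combination hXY⟩
    obtain ⟨X', hX'⟩ := hpp.dvd_of_dvd_pow h1
    have h2 : p * X' ^ 2 + m' * Y ^ 2 = 5 * b' * Z ^ 2 := by
      rw [hX', hb', hm'] at hXY
      refine mul_left_cancel₀ hpp.ne_zero ?_
      linear_combination hXY
    have hpZ : ¬ (p : ℤ) ∣ Z := by
      rintro ⟨Z', hZ'⟩
      have h3 : (p : ℤ) ∣ m' * Y ^ 2 := ⟨5 * b' * (p * Z' ^ 2) - X' ^ 2, by
        rw [hZ'] at h2
        linear_combination h2⟩
      have h4 := hpp.dvd_of_dvd_pow ((hpp.dvd_or_dvd h3).resolve_left hm'nd)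
      exact hco p hp ⟨⟨X', hX'⟩, h4, ⟨Z', hZ'⟩⟩
    have hZ0 : (Z : ZMod p) ≠ 0 := by
      rw [Ne, ZMod.intCast_zmod_eq_zero_iff_dvd]
      exact hpZ
    have h5 : (m' : ZMod p) * (Y : ZMod p) ^ 2 = 5 * (b' : ZMod p) * (Z : ZMod p) ^ 2 := by
      have h6 : ((p * X' ^ 2 + m' * Y ^ 2 : ℤ) : ZMod p) = ((5 * b' * Z ^ 2 : ℤ) : ZMod p) := by
        rw [h2]
      push_cast at h6
      rw [ZMod.natCast_self] at h6
      linear_combination h6
    show IsSquare (((m' * (5 * b') : ℤ)) : ZMod p)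
    refine ⟨(m' : ZMod p) * Y / Z, ?_⟩
    push_cast
    field_simp
    linear_combination (-(m' : ZMod p)) * h5

/-- **The criterion.** -/
theorem disc_criterion (K : Type) [Field K] [NumberField K] (h2 : Module.finrank ℚ K = 2)
    (h0 : discr K < 0) (h4 : discr K ≠ -4) (h3 : discr K % 3 = 2)
    (h5 : discr K % 5 = 1 ∨ discr K % 5 = 4)
    (hcl : ∀ x : ClassGroup (𝓞 K), x ^ 4 = 1 → x ^ 2 = 1)
    (b : ℕ) (hb : Squarefree b) (hbd : (b : ℤ) ∣ discr K) (hb3 : b % 3 = 1)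
    (hbn : ∃ u v : ℚ, (5 * b : ℚ) = u ^ 2 - discr K * v ^ 2) :
    Finite (X015 K).toAffine.Point := by
  obtain ⟨m, hm, hs⟩ := Pool.Agent.Y797.FK.t_DISC.2.1 K h2 h0
  have hd := Pool.Agent.Y797.FK.t_DISC.1 K h2 m hm hs
  have e3 : m % 3 = 1 := by
    split_ifs at hd <;> rw [hd] at h3 <;> omega
  have e5 : m % 5 = 1 ∨ m % 5 = 4 := by
    split_ifs at hd <;> rw [hd] at h5 <;> omega
  have e1 : m ≠ 1 := by
    rintro rfl
    split_ifs at hd <;> omega
  obtain ⟨n, t, r, s, hp⟩ := par_exists hm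
  obtain ⟨s', hs'⟩ := hs
  have hG := CG.gd_of_class h2 hm hp ⟨s', hs'⟩ hcl
  have hz := hz_of hm hp e3 e5
  have hbm : ∃ u v : ℚ, (5 * b : ℚ) = u ^ 2 + m * v ^ 2 := by
    obtain ⟨u, v, huv⟩ := hbn
    split_ifs at hd with h
    all_goals rw [hd] at huv
    · exact ⟨u, v, by rw [huv]; push_cast; ring⟩
    · exact ⟨u, 2 * v, by rw [huv]; push_cast; ring⟩
  have hmn := hp.1
  have hn0 := hz.sq.ne_zero
  have hbn' : (b : ℤ) ∣ 2 * (n : ℤ) := by
    refine dvd_of_primes (Int.squarefree_natCast.2 hb) fun p hp' hpb => ?_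
    have hpp : Prime (p : ℤ) := Nat.prime_iff_prime_int.1 hp'
    by_cases hp2 : p = 2
    · subst hp2
      exact dvd_mul_right _ _
    have h6 : (p : ℤ) ∣ discr K := hpb.trans hbd
    have h7 : p ∣ 4 * m := by
      have h8 : (p : ℤ) ∣ ((4 * m : ℕ) : ℤ) := by
        split_ifs at hd with h
        all_goals rw [hd] at h6
        · have h9 := (dvd_neg.1 h6)
          push_cast
          exact h9.mul_left 4
        · push_cast
          have h9 := dvd_neg.2 h6
          ring_nf at h9 ⊢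
          exact h9
      exact_mod_cast h8
    have h10 : p ∣ n := by
      have h11 : p ∣ 4 * (2 * n) := by
        rw [hmn] at h7
        split_ifs at h7
        · exact h7
        · exact h7.trans ⟨2, by ring⟩
      rcases hp'.dvd_mul.1 h11 with h | h
      · have : p ∣ 2 ^ 2 := h
        exact absurd ((Nat.prime_dvd_prime_iff_eq hp' Nat.prime_two).1 (hp'.dvd_of_dvd_pow this)) hp2
      · rcases hp'.dvd_mul.1 h with h | h
        · exact absurd ((Nat.prime_dvd_prime_iff_eq hp' Nat.prime_two).1 h) hp2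
        · exact h
    exact (Int.natCast_dvd_natCast.2 h10).mul_left 2
  have hGz : Gz t r s n.primeFactors := by
    refine gz_of_loc hz hG (b := (b : ℤ)) (Int.squarefree_natCast.2 hb)
      (by exact_mod_cast Nat.pos_of_ne_zero hb.ne_zero) hbn' (fun ht => ?_) (by omega)
      fun p hpn m' hm' => ?_
    · -- the discriminant is odd
      obtain ⟨hr, hs0⟩ := hp.2.2.1 ht
      have h6 := hp.1
      have h7 := hp.2.1
      rw [hr, if_neg (by decide)] at h6
      rw [hs0, if_pos rfl] at h7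
      rw [if_pos (by omega)] at hd
      rw [hd] at hbd
      by_contra hcon
      have h8 : (2 : ℤ) ∣ b := by omega
      have h9 := h8.trans hbd
      omega
    · rw [← hmn] at hm'
      exact loc_of hm hbm (Nat.prime_of_mem_primeFactors hpn) hm'
  exact criterionz hm e1 hp e3 e5 hGz K h2 s' hs'

end Pool.Agent.T2h1.XB
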